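import Pool.Agent.K3h70.EB.Main

/-!
# Steady flows are dense in `B⁰_(∞,r)` exactly for `r > 2`

Every initial datum `u₀ ∈ H^m(𝕋³)`, `m ≥ 3`, is the limit of one sequence `v n` of smooth, steady,
pressureless solutions of the Euler equations (which are global smooth solutions), simultaneously in
all the spaces `B⁰_(∞,r)(𝕋³)` with `r > 2`, and `v n` has the same Fourier coefficients as `u₀` at
all frequencies with `|l i| ≤ n`. For `r ≤ 2` this fails for every datum whose classical solution is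
not stationary: in `B⁰_(∞,r)` the steady classical solutions then stay away from the datum.
-/

set_option autoImplicit false

open MeasureTheory Set Filter Topology
open scoped ENNReal ContDiff SchwartzMap

namespace Pool.Agent.Results.MP_b0497c_an.BesovDensity

open Pool.Agent.H708R2.EulerSign (V IsClassicalSolution)
open Pool.Agent.H708R2.EulerModes (SameModes)
open Pool.Agent.K3h70.EB

theorem result {m : ℕ} (hm : 3 ≤ m) {u₀ : V → V} (hu : IsHm m u₀) :
    (∃ v : ℕ → V → V,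
      (∀ n, ContDiff ℝ ∞ (v n) ∧ IsClassicalSolution univ (fun _ => v n) (fun _ _ => 0) ∧
        SameModes n (v n) u₀ ∧
        ∀ (T : ℝ) (w : ℝ → V → V) (q : ℝ → V → ℝ), IsClassicalSolution (Ico 0 T) w q →
          ∀ t₀ ∈ Ico 0 T, w t₀ = v n → ∀ t ∈ Ico 0 T, w t = v n) ∧
      ∀ χ ψ : 𝓢(V, ℝ), ∫ y, ψ y = 0 → ∀ r : ℝ, 2 < r →
        Tendsto (fun n => besov χ ψ r (fun x => v n x - u₀ x)) atTop (𝓝 0)) ∧
    (∀ χ ψ : 𝓢(V, ℝ), IsLPPair χ ψ → ∀ (T : ℝ) (u : ℝ → V → V) (p : ℝ → V → ℝ),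
      IsClassicalSolution (Ico 0 T) u p → u 0 = u₀ → (∃ t ∈ Ico 0 T, u t ≠ u₀) →
      ∀ r : ℝ, 0 < r → r ≤ 2 → ∃ ε : ℝ, 0 < ε ∧ ∀ (v : V → V) (q : ℝ → V → ℝ),
        IsClassicalSolution (Ico 0 T) (fun _ => v) q →
        ENNReal.ofReal ε ≤ besov χ ψ r (fun x => v x - u₀ x)) := by
  refine ⟨density_seq hm hu, fun χ ψ hLP T u p hup h0 ⟨t, ht, hne⟩ r hr0 hr2 => ?_⟩
  subst h0
  exact failure χ ψ hLP hup ht hne hr0 hr2

end Pool.Agent.Results.MP_b0497c_an.BesovDensity
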