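import Pool.Agent.K3h70.EP.Main

/-!
# Euler on `𝕋³`: the low modes of global smooth flows can follow every path

No equation is assumed of the path `u` in the first part: `u(t)` is any family of divergence-free
fields with constant mean, continuous Fourier coefficients and locally bounded energy. For every
`T`, `s > 1`, `ε > 0`, every `K` and every finite set `S` of times there is a global smooth solution
`v` of the Euler equations which is `ε`-close to `u` in `H^{-s}` at all times of `[-T, T]` and has
the same Fourier coefficients as `u` at all frequencies with `|l i| ≤ K` at the times of `S`. If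
these coefficients of `u` are trigonometric polynomials in time, with arbitrary frequencies, then
they are equal to those of `v` at all times `t ∈ ℝ`. The flow `v` is a trigonometric polynomial in
time, so that all its derivatives are bounded uniformly in `t ∈ ℝ`.

By the second part, every classical solution `u` on `[0, T)`, for instance one which blows up at
time `T`, is `ε`-close in `H^{-s}` on its whole time interval `[0, T)` to such a global flow.
-/

set_option autoImplicit false

open MeasureTheory Set

namespace Pool.Agent.Results.MP_b0497c_an.ModePaths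

open Pool.Agent.H708R2.EulerSign (V IsClassicalSolution)
open Pool.Agent.H708R2.EulerModes (SameModes HNegClose cosCoeff sinCoeff)
open Pool.Agent.K3h70.EP (IsGlobalFlow IsPath TrigPoly)

theorem result (K : ℕ) (s ε : ℝ) (hs : 1 < s) (hε : 0 < ε) :
    (∀ u : ℝ → V → V, IsPath u → ∀ (T : ℝ) (S : Finset ℝ),
      ∃ (v : ℝ → V → V) (q : V → ℝ), IsGlobalFlow v q ∧
        (∀ t ∈ Icc (-T) T, HNegClose s ε (v t) (u t)) ∧
        (∀ t ∈ S, SameModes K (v t) (u t)) ∧
        ((∀ l : Fin 3 → ℤ, (∀ i, |l i| ≤ K) → ∀ i,
          TrigPoly (fun t => cosCoeff l (fun x => u t x i)) ∧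
          TrigPoly (fun t => sinCoeff l (fun x => u t x i))) →
            ∀ t, SameModes K (v t) (u t))) ∧
    (∀ (T : ℝ) (u : ℝ → V → V) (p : ℝ → V → ℝ), 0 < T → IsClassicalSolution (Ico 0 T) u p →
      ∀ S : Finset ℝ, (∀ t ∈ S, t ∈ Ico 0 T) →
      ∃ (v : ℝ → V → V) (q : V → ℝ), IsGlobalFlow v q ∧
        (∀ t ∈ Ico 0 T, HNegClose s ε (v t) (u t)) ∧
        (∀ t ∈ S, SameModes K (v t) (u t))) := by
  refine ⟨fun u hu T S => ?_, fun T u p hT hu S hS => ?_⟩
  · obtain ⟨v, q, h1, h2, h3, h4⟩ := Pool.Agent.K3h70.EP.paths hu K hs hε T S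
    exact ⟨v, q, h1, h3, h2, h4⟩
  · obtain ⟨v, q, h1, h2, h3⟩ := Pool.Agent.K3h70.EP.classical_path hT hu K hs hε S hS
    exact ⟨v, q, h1, h3, h2⟩

end Pool.Agent.Results.MP_b0497c_an.ModePaths
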