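import Pool.Agent.K3h69.OS.Tw2

/-!
# No singularity of the Euler equations under a one-sided condition at one maximum point

Constantin's formula represents the stretching rate of the vorticity `ω` at `x` as
`(3 / 4π) p.v. ∫ (y · ξ) det(y, ω(x + y), ξ) / |y|⁵ dy`, `ξ = ω(x) / |ω(x)|`. Only the positive
part of the integrand near one point of maximal vorticity matters for the loss of regularity.
-/

open MeasureTheory Set
open scoped ENNReal Topology

namespace Pool.Agent.Results.MP_b0497c_an.OneSidedTwist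

open Pool.Agent.H708R2.EulerSign Pool.Agent.H708R2.EulerTypeI Pool.Agent.W786.Max
  Pool.Agent.K3h69.OS

/-- Let `(u, p)` be a `C²` periodic solution of the Euler equations on `[0, T)`, let `0 ≤ κ < 1`
and let `β` be integrable on `(0, T)`. If for almost every `t` there is one point `x` of maximal
vorticity at which, unless `|ω(t, x)| ≤ Λ`, the one-sided condition holds with the bounds
`κ / (T - t) + β(t)` and `β(t)`, then `|ω| = O((T - t)^(-κ'))` for every `κ' > κ`, and the
Beale-Kato-Majda integral is finite. -/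
theorem result (T κ Λ : ℝ) (u : ℝ → V → V) (p : ℝ → V → ℝ) (β : ℝ → ℝ)
    (h : IsC2Solution T u p) (hκ : 0 ≤ κ) (hκ1 : κ < 1) (hβ : IntegrableOn β (Ioo 0 T))
    (hyp : ∀ᵐ t : ℝ, t ∈ Ioo 0 T → ∃ x, IsMaxPt u t x ∧
      (Λ < nrm (vort (u t) x) → OneSidedAt (u t) x (κ / (T - t) + β t) (β t))) :
    (∀ κ' > κ, ∃ C : ℝ, ∀ t ∈ Ioo 0 T, ∀ x, nrm (vort (u t) x) ≤ C * (T - t) ^ (-κ')) ∧
      BKMFinite T u := by
  have h1 := fun κ' (hκ' : κ' > κ) => oneSided_bound h hκ hβ hyp hκ'
  obtain ⟨C, hC⟩ := h1 ((κ + 1) / 2) (by linarith)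
  exact ⟨h1, bkm_of_rpow (by linarith) hC⟩

end Pool.Agent.Results.MP_b0497c_an.OneSidedTwist
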