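import Pool.Agent.K3h70.PP.Main
import Pool.Agent.K3h70.PP.Nec

/-!
# Euler on `𝕋³`: planar paths in `B⁰_(∞,r)`, `r > 2`, are limits of global smooth flows

Let `η ∈ ℤ³` be nonzero and let `u(t)`, `t ∈ ℝ`, be *any* path of divergence-free fields which are
parallel to the planes orthogonal to `η`, locally bounded in `H^m`, `m ≥ 3`, with continuous Fourier
coefficients, and such that the averages of `u` over the planes orthogonal to `η` do not depend on
time. No equation is assumed. Then `u` is the limit, uniformly on bounded time intervals in the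
norm of `B⁰_(∞,r)(𝕋³)` for every `r > 2`, of global smooth solutions `v_n` of the Euler equations
with zero pressure and parallel to the same planes, which moreover have the same Fourier modes
`|l i| ≤ n` as `u` at prescribed finite sets `S n` of times.

The condition on the averages is necessary: it holds for all classical solutions which are parallel
to the planes. The exponent `2` is optimal: if `w` is a classical solution with `w(0) = u(0)` and
`w(t₁) ≠ u(t₁)`, then for `r ≤ 2` no sequence of classical solutions (with any pressure, parallel to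
the planes or not) converges to `u` in `B⁰_(∞,r)` at both times `0`, `t₁`.
-/

set_option autoImplicit false

open MeasureTheory Set Filter Topology
open scoped ENNReal SchwartzMap

namespace Pool.Agent.Results.MP_b0497c_an.PlanarPaths

open Pool.Agent.H708R2.EulerSign (V IsClassicalSolution Periodic3)
open Pool.Agent.H708R2.EulerModes (SameModes cosCoeff sinCoeff)
open Pool.Agent.K3h70.EB (besov coeff IsLPPair)
open Pool.Agent.K3h70.EP (IsGlobalFlow TrigPoly)
open Pool.Agent.K3h70.PP (IsPlanarPath)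

theorem result (η : Fin 3 → ℤ) (hη : η ≠ 0) :
    -- (1) planar paths are limits of planar global flows
    (∀ (m : ℕ) (u : ℝ → V → V), 3 ≤ m → IsPlanarPath m η u → ∀ S : ℕ → Finset ℝ,
      ∃ v : ℕ → ℝ → V → V,
        (∀ n, IsGlobalFlow (v n) (fun _ => 0) ∧ (∀ t x, ∑ i, (η i : ℝ) * v n t x i = 0) ∧
          (∀ t ∈ S n, SameModes n (v n t) (u t)) ∧
          ((∀ l : Fin 3 → ℤ, (∀ i, |l i| ≤ n) → ∀ i,
            TrigPoly (fun t => cosCoeff l (fun x => u t x i)) ∧
            TrigPoly (fun t => sinCoeff l (fun x => u t x i))) →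
              ∀ t, SameModes n (v n t) (u t))) ∧
        ∀ χ ψ : 𝓢(V, ℝ), ∫ y, ψ y = 0 → ∀ r : ℝ, 2 < r → ∀ T : ℝ,
          Tendsto (fun n => ⨆ t ∈ Icc (-T) T, besov χ ψ r (fun x => v n t x - u t x)) atTop
            (𝓝 0)) ∧
    -- (2) the averages over the planes are constant for all planar solutions
    (∀ (T : ℝ) (v : ℝ → V → V) (q : ℝ → V → ℝ), IsClassicalSolution (Ico 0 T) v q →
      (∀ t ∈ Ico 0 T, ∀ x, ∑ i, (η i : ℝ) * v t x i = 0) →
      ∀ k : Fin 3 → ℤ, (∃ c : ℝ, ∀ i, (k i : ℝ) = c * η i) → ∀ t ∈ Ico 0 T, ∀ i,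
        coeff (fun x => v t x i) k = coeff (fun x => v 0 x i) k) ∧
    -- (3) the exponent `r = 2` is optimal
    (∀ χ ψ : 𝓢(V, ℝ), IsLPPair χ ψ → ∀ (T : ℝ) (w : ℝ → V → V) (p : ℝ → V → ℝ),
      IsClassicalSolution (Ico 0 T) w p → ∀ (m : ℕ) (u : ℝ → V → V), IsPlanarPath m η u →
      u 0 = w 0 → ∀ t₁ ∈ Ico 0 T, u t₁ ≠ w t₁ → ∀ r : ℝ, 0 < r → r ≤ 2 →
      ∃ ε : ℝ, 0 < ε ∧ ∀ (v : ℝ → V → V) (q : ℝ → V → ℝ), IsClassicalSolution (Ico 0 T) v q →
        ENNReal.ofReal ε ≤ besov χ ψ r (fun x => v 0 x - u 0 x) ∨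
        ENNReal.ofReal ε ≤ besov χ ψ r (fun x => v t₁ x - u t₁ x)) := by
  refine ⟨fun m u hm hu S => Pool.Agent.K3h70.PP.planar_seq hm hη hu S,
    fun T v q hv hpl k hk t ht i => Pool.Agent.K3h70.PP.avg_coeff hv hpl hk i ht,
    fun χ ψ hLP T w p hw m u hu h0 t₁ ht₁ hne r hr0 hr2 => ?_⟩
  rw [h0]
  exact Pool.Agent.K3h70.PP.failure' χ ψ hLP hw ht₁ (hu.cont t₁) (hu.per t₁) hne hr0 hr2

end Pool.Agent.Results.MP_b0497c_an.PlanarPaths
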